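import Pool.Agent.H51.EI.TargetsA

set_option autoImplicit false

open Polynomial Finset

namespace Pool.Agent.H77.EI.ONE

open Pool.Agent.H51.EI
open Pool.Agent.H25.EE (thr phi bN bH)

variable {O : Subring ℂ}

theorem dist_le {X0 β : ℂ} {t : ℝ} (ht : 0 < t) (h : t ≤ vv X0 β) :
    ‖β - X0‖ ≤ Real.exp (-t) := by
  unfold vv at h
  have h1 : t ≤ -Real.log ‖β - X0‖ := by
    rcases le_max_iff.mp h with h | h
    · linarith
    · exact h
  rcases eq_or_lt_of_le (norm_nonneg (β - X0)) with h0 | h0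
  · rw [← h0]
    positivity
  · rw [← Real.exp_log h0]
    exact Real.exp_le_exp.mpr (by linarith)

theorem ev_eq (D : (↥O)[X]) (x : ℂ) : ev D x = ∑ i ∈ D.support, (D.coeff i : ℂ) * x ^ i := by
  unfold ev toC
  rw [eval_map, eval₂_eq_sum, sum_def]
  rfl

theorem ev_le (D : (↥O)[X]) (x : ℂ) : ‖ev D x‖ ≤ plen D * (max 1 ‖x‖) ^ D.natDegree := by
  rw [ev_eq]
  refine (norm_sum_le _ _).trans ?_
  unfold plen
  rw [Finset.sum_mul]
  refine Finset.sum_le_sum fun i hi => ?_
  rw [norm_mul, norm_pow]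
  refine mul_le_mul_of_nonneg_left ?_ (norm_nonneg _)
  calc ‖x‖ ^ i ≤ (max 1 ‖x‖) ^ i := pow_le_pow_left₀ (norm_nonneg _) (le_max_right _ _) _
    _ ≤ (max 1 ‖x‖) ^ D.natDegree :=
      pow_le_pow_right₀ (le_max_left _ _) (le_natDegree_of_mem_supp i hi)

theorem pf_ONE : T_ONE := by
  intro O X0 c ε J hc hε hJ hFT S h hh hRes _ β1 hβ1 hthr w hw
  have hJ2 : (2 : ℝ) ≤ J := by exact_mod_cast hJ
  have hlog : 0 < Real.log J := Real.log_pos (by linarith)
  have hJ0 : (0 : ℝ) < J := by linarith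
  have hthr0 : 0 < thr J := by
    unfold thr
    positivity
  have hbH : 0 ≤ bH J / c := by
    unfold bH
    positivity
  obtain ⟨D, hD1, hD2, hD3, hD4⟩ := hFT β1 (dist_le hthr0 hthr)
  have key := hRes D β1 D.natDegree (bH J / c) (fun β => max 0 (phi ε J (w β))) hβ1 hD3 le_rfl ?_
  · refine key.trans ?_
    have h1 : (D.natDegree : ℝ) * h ≤ c * bN J * h := mul_le_mul_of_nonneg_right hD1 hh
    linarith [mul_comm ((Multiset.card S : ℕ) : ℝ) (bH J / c)]
  · intro β hβ
    obtain ⟨hw0, hw1⟩ := hw β hβ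
    have hm1 : 1 ≤ (max 1 ‖β‖) ^ D.natDegree := one_le_pow₀ (le_max_left _ _)
    have he1 : 1 ≤ Real.exp (bH J / c) := Real.one_le_exp hbH
    show ‖ev D β‖ ≤ Real.exp (bH J / c) * (max 1 ‖β‖) ^ D.natDegree *
      Real.exp (-(max 0 (phi ε J (w β))))
    rcases le_or_gt (phi ε J (w β)) 0 with hp | hp
    · rw [max_eq_left hp, neg_zero, Real.exp_zero, mul_one]
      refine (ev_le D β).trans ?_
      exact mul_le_mul_of_nonneg_right hD2 (by positivity)
    · rw [max_eq_right hp.le]
      have hwpos : 0 < w β := by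
        rcases eq_or_lt_of_le hw0 with h0 | h0
        · exfalso
          rw [← h0] at hp
          unfold phi at hp
          have : 0 ≤ ε * (J : ℝ) ^ 8 * Real.log J := by positivity
          simp only [mul_zero] at hp
          norm_num at hp
          linarith
        · exact h0
      have h1 := hD4 (w β) hw0 β (dist_le hwpos hw1)
      refine h1.trans ?_
      have h2 : 1 ≤ Real.exp (bH J / c) * (max 1 ‖β‖) ^ D.natDegree := by nlinarith
      have h3 := Real.exp_pos (-(phi ε J (w β)))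
      nlinarith

end Pool.Agent.H77.EI.ONE
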