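import Pool.Agent.H51.EI.TargetsA

set_option autoImplicit false

open Polynomial Finset

namespace Pool.Agent.H77.EI.FRU

open Pool.Agent.H51.EI

variable {O : Subring ℂ}

theorem inj : Function.Injective O.subtype := O.subtype_injective

theorem toC_ne {P : (↥O)[X]} (h : P ≠ 0) : toC P ≠ 0 := by
  unfold toC
  rwa [Ne, Polynomial.map_eq_zero_iff inj]

theorem toC_mul (P Q : (↥O)[X]) : toC (P * Q) = toC P * toC Q := by
  unfold toC
  exact Polynomial.map_mul _

/-- the logarithm of the Mahler measure -/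
noncomputable def hM (P : (↥O)[X]) : ℝ := logMahlerMeasure (toC P)

theorem hM_mul {P Q : (↥O)[X]} (hP : P ≠ 0) (hQ : Q ≠ 0) : hM (P * Q) = hM P + hM Q := by
  unfold hM
  rw [toC_mul]
  exact logMahlerMeasure_mul_eq_add_logMahlerMeasure (mul_ne_zero (toC_ne hP) (toC_ne hQ))

theorem rts_mul {P Q : (↥O)[X]} (hP : P ≠ 0) (hQ : Q ≠ 0) : rts (P * Q) = rts P + rts Q := by
  unfold rts
  rw [toC_mul]
  exact roots_mul (mul_ne_zero (toC_ne hP) (toC_ne hQ))

theorem lc_ge (hO : Disc O) {P : (↥O)[X]} (hP : P ≠ 0) : 1 ≤ ‖(toC P).leadingCoeff‖ := by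
  have e1 : (toC P).leadingCoeff = (P.leadingCoeff : ℂ) := by
    unfold toC
    rw [leadingCoeff_map_of_injective inj]
    rfl
  rw [e1]
  exact hO _ (leadingCoeff_ne_zero.mpr hP)

theorem hM_eq (P : (↥O)[X]) : hM P = Real.log ‖(toC P).leadingCoeff‖ +
    ((rts P).map (fun β => Real.log (max 1 ‖β‖))).sum := by
  unfold hM
  rw [logMahlerMeasure_eq_log_leadingCoeff_add_sum_log_roots]
  unfold rts
  simp only [Real.posLog_eq_log_max_one (norm_nonneg _)]

theorem hM_nonneg (hO : Disc O) {P : (↥O)[X]} (hP : P ≠ 0) : 0 ≤ hM P := by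
  rw [hM_eq]
  refine add_nonneg (Real.log_nonneg (lc_ge hO hP)) (Multiset.sum_nonneg fun x hx => ?_)
  obtain ⟨β, -, rfl⟩ := Multiset.mem_map.1 hx
  exact Real.log_nonneg (le_max_left _ _)

theorem prod_fac (F : Multiset (↥O)[X]) (hF : ∀ R ∈ F, R ≠ 0) :
    F.prod ≠ 0 ∧ (F.map hM).sum = hM F.prod ∧ (F.map rts).sum = rts F.prod := by
  induction F using Multiset.induction_on with
  | empty =>
    refine ⟨by simp, ?_, ?_⟩
    · simp [hM, toC]
    · simp [rts, toC]
  | cons R F ih =>
    obtain ⟨h0, h2, h3⟩ := ih fun Q hQ => hF Q (Multiset.mem_cons_of_mem hQ)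
    have hR : R ≠ 0 := hF R (Multiset.mem_cons_self R F)
    rw [Multiset.prod_cons, Multiset.map_cons, Multiset.sum_cons, Multiset.map_cons,
      Multiset.sum_cons, h2, h3, hM_mul hR h0, rts_mul hR h0]
    exact ⟨mul_ne_zero hR h0, rfl, rfl⟩

theorem hM_le {D : (↥O)[X]} (hD : D ≠ 0) : hM D ≤ Real.log (plen D) := by
  unfold hM
  rw [logMahlerMeasure_eq_log_MahlerMeasure]
  refine Real.log_le_log (mahlerMeasure_pos_of_ne_zero (toC_ne hD)) ?_
  refine (mahlerMeasure_le_sum_norm_coeff _).trans (le_of_eq ?_)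
  unfold plen toC
  rw [Polynomial.sum_def, support_map_of_injective _ inj]
  refine Finset.sum_congr rfl fun i _ => ?_
  rw [coeff_map]
  rfl

/-- an irreducible polynomial of positive degree divides `Q` if the resultant is zero -/
theorem dvd_of_res {A K : Type} [CommRing A] [IsDomain A] [UniqueFactorizationMonoid A]
    [Field K] [Algebra A K] [IsFractionRing A K] {R Q : A[X]} (hR : Irreducible R)
    (hnd : R.natDegree ≠ 0) (h0 : resultant R Q = 0) : R ∣ Q := by
  have hprim : R.IsPrimitive := hR.isPrimitive hnd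
  have hirr : Irreducible (R.map (algebraMap A K)) :=
    (IsPrimitive.irreducible_iff_irreducible_map_fraction_map hprim).mp hR
  have hinjQ : Function.Injective (algebraMap A K) := IsFractionRing.injective A K
  have h3 : resultant (R.map (algebraMap A K)) (Q.map (algebraMap A K)) = 0 := by
    rw [natDegree_map_eq_of_injective hinjQ, natDegree_map_eq_of_injective hinjQ,
      resultant_map_map, h0]
    simp
  have h4 := (resultant_eq_zero_iff.mp h3).2
  rw [hirr.coprime_iff_not_dvd] at h4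
  exact hprim.dvd_of_fraction_map_dvd_fraction_map (K := K) (not_not.mp h4)

/-- the product of the values at the roots is at least one -/
theorem res_ge_one [UniqueFactorizationMonoid O] (hO : Disc O) (R Q : (↥O)[X]) (β1 : ℂ)
    (hR : Irreducible R) (h1 : ev R β1 = 0) (h2 : ev Q β1 ≠ 0) :
    (1:ℝ) ≤ ‖(toC R).leadingCoeff‖ ^ Q.natDegree *
      ‖((rts R).map (fun β => ev Q β)).prod‖ := by
  have hdegR : (toC R).natDegree = R.natDegree := natDegree_map_eq_of_injective inj R
  have hdegQ : (toC Q).natDegree = Q.natDegree := natDegree_map_eq_of_injective inj Q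
  have hr : ((resultant R Q : O) : ℂ) = (toC R).leadingCoeff ^ Q.natDegree *
      ((rts R).map (fun β => ev Q β)).prod := by
    have e1 := resultant_eq_prod_eval (toC R) (toC Q) Q.natDegree hdegQ.le
      (IsAlgClosed.splits (toC R))
    rw [hdegR] at e1
    unfold toC at e1
    rw [resultant_map_map] at e1
    exact e1
  have hne : resultant R Q ≠ 0 := by
    intro h0
    have hR0 : R ≠ 0 := hR.ne_zero
    have hnd : R.natDegree ≠ 0 := by
      intro hd
      rw [natDegree_eq_zero] at hd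
      obtain ⟨c, rfl⟩ := hd
      have hc : c ≠ 0 := by rintro rfl; exact hR0 (by simp)
      apply hc
      have h3 : ((c : O) : ℂ) = 0 := by
        have h4 := h1
        unfold ev toC at h4
        rw [map_C, eval_C] at h4
        exact h4
      exact Subtype.ext h3
    have h6 : R ∣ Q := dvd_of_res (K := FractionRing O) hR hnd h0
    obtain ⟨T, hT⟩ := h6
    apply h2
    unfold ev at h1 ⊢
    rw [hT, toC_mul, eval_mul, h1, zero_mul]
  have h8 : (1:ℝ) ≤ ‖((resultant R Q : O) : ℂ)‖ := hO _ hne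
  rw [hr, norm_mul, norm_pow] at h8
  exact h8

theorem res_prod (N : ℕ) (H : ℝ) (g : ℂ → ℝ) (Q : (↥O)[X]) (T : Multiset ℂ)
    (h : ∀ β ∈ T, ‖ev Q β‖ ≤ Real.exp H * (max 1 ‖β‖) ^ N * Real.exp (-(g β))) :
    ‖(T.map (fun β => ev Q β)).prod‖ ≤ Real.exp ((Multiset.card T) * H +
      N * (T.map (fun β => Real.log (max 1 ‖β‖))).sum - (T.map g).sum) := by
  induction T using Multiset.induction_on with
  | empty => simp
  | cons a T ih =>
    have h1 := h a (Multiset.mem_cons_self a T)
    have h2 := ih (fun β hβ => h β (Multiset.mem_cons_of_mem hβ))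
    simp only [Multiset.map_cons, Multiset.sum_cons, Multiset.prod_cons,
      Multiset.card_cons, norm_mul]
    have hm : (0:ℝ) < max 1 ‖a‖ := lt_of_lt_of_le one_pos (le_max_left _ _)
    have e1 : Real.exp H * (max 1 ‖a‖) ^ N * Real.exp (-(g a)) =
        Real.exp (H + N * Real.log (max 1 ‖a‖) - g a) := by
      have : (max 1 ‖a‖) ^ N = Real.exp (N * Real.log (max 1 ‖a‖)) := by
        rw [mul_comm, Real.exp_mul, Real.exp_log hm, Real.rpow_natCast]
      rw [this, ← Real.exp_add, ← Real.exp_add]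
      congr 1
    rw [e1] at h1
    calc _ ≤ Real.exp (H + N * Real.log (max 1 ‖a‖) - g a) * Real.exp ((Multiset.card T) * H +
      N * (T.map (fun β => Real.log (max 1 ‖β‖))).sum - (T.map g).sum) :=
          mul_le_mul h1 h2 (norm_nonneg _) (Real.exp_pos _).le
      _ = _ := by
        rw [← Real.exp_add]
        congr 1
        push_cast
        ring

theorem resP [UniqueFactorizationMonoid O] (hO : Disc O) (R : (↥O)[X]) (hR : Irreducible R) :
    ResP O (rts R) (hM R) := by
  intro Q β1 N H g h1 h2 hQ hH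
  have hR0 : R ≠ 0 := hR.ne_zero
  have h1' : ev R β1 = 0 := (mem_roots'.mp h1).2
  have hlc : (1:ℝ) ≤ ‖(toC R).leadingCoeff‖ := lc_ge hO hR0
  have hge := res_ge_one hO R Q β1 hR h1' h2
  have hp := res_prod N H g Q (rts R) hH
  have hlcN : ‖(toC R).leadingCoeff‖ ^ Q.natDegree ≤
      Real.exp (N * Real.log ‖(toC R).leadingCoeff‖) := by
    rw [mul_comm, Real.exp_mul, Real.exp_log (by linarith), Real.rpow_natCast]
    exact pow_le_pow_right₀ hlc hQ
  have h3 : (1:ℝ) ≤ Real.exp (N * Real.log ‖(toC R).leadingCoeff‖ +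
      ((Multiset.card (rts R)) * H +
      N * ((rts R).map (fun β => Real.log (max 1 ‖β‖))).sum - ((rts R).map g).sum)) := by
    rw [Real.exp_add]
    exact hge.trans (mul_le_mul hlcN hp (norm_nonneg _) (Real.exp_pos _).le)
  have h4 : (0:ℝ) ≤ N * Real.log ‖(toC R).leadingCoeff‖ + ((Multiset.card (rts R)) * H +
      N * ((rts R).map (fun β => Real.log (max 1 ‖β‖))).sum - ((rts R).map g).sum) := by
    exact Real.exp_le_exp.mp (le_of_eq_of_le Real.exp_zero h3)
  rw [hM_eq]
  linarith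

theorem unit_norm (hO : Disc O) {r : O} (hr : IsUnit r) : ‖(r : ℂ)‖ = 1 := by
  obtain ⟨u, rfl⟩ := hr
  have h1 := hO (u : O) u.ne_zero
  have h2 := hO ((u⁻¹ : Oˣ) : O) (u⁻¹).ne_zero
  have h3 : ((u : O) : ℂ) * (((u⁻¹ : Oˣ) : O) : ℂ) = 1 := by
    have h4 : (u : O) * ((u⁻¹ : Oˣ) : O) = 1 := u.mul_inv
    exact_mod_cast congrArg (Subtype.val) h4
  have h5 : ‖((u : O) : ℂ)‖ * ‖(((u⁻¹ : Oˣ) : O) : ℂ)‖ = 1 := by
    rw [← norm_mul, h3, norm_one]
  nlinarith

theorem pf_FRU : T_FRU := by
  intro O _ hO D hD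
  obtain ⟨F, hF⟩ : ∃ F : Multiset (↥O)[X], F = UniqueFactorizationMonoid.factors D := ⟨_, rfl⟩
  have hirr : ∀ R ∈ F, Irreducible R := by
    intro R hR
    rw [hF] at hR
    exact UniqueFactorizationMonoid.irreducible_of_factor R hR
  obtain ⟨h0, h2, h3⟩ := prod_fac F fun R hR => (hirr R hR).ne_zero
  have hass : Associated F.prod D := by
    rw [hF]
    exact UniqueFactorizationMonoid.factors_prod hD
  obtain ⟨u, hu⟩ := hass
  obtain ⟨r, hr, hru⟩ := Polynomial.isUnit_iff.1 u.isUnit
  have hrr : ‖((r : O) : ℂ)‖ = 1 := unit_norm hO hr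
  have hu0 : (C r : (↥O)[X]) ≠ 0 := by
    rw [hru]
    exact u.ne_zero
  have hDe : D = F.prod * C r := by rw [← hu, ← hru]
  have htC : toC (C r) = C ((r : O) : ℂ) := by
    unfold toC
    rw [map_C]
    rfl
  have e2 : hM D = hM F.prod := by
    have h4 : hM (C r) = 0 := by
      unfold hM
      rw [htC, logMahlerMeasure_const, hrr, Real.log_one]
    rw [hDe, hM_mul h0 hu0, h4, add_zero]
  have e3 : rts D = rts F.prod := by
    have h4 : rts (C r) = 0 := by
      unfold rts
      rw [htC, roots_C]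
    rw [hDe, rts_mul h0 hu0, h4, add_zero]
  refine ⟨F.map fun R => (rts R, hM R), ?_, ?_, ?_⟩
  · rw [Multiset.map_map]
    show (F.map rts).sum = rts D
    rw [h3, e3]
  · rw [Multiset.map_map]
    show (F.map hM).sum ≤ Real.log (plen D)
    rw [h2, ← e2]
    exact hM_le hD
  · intro S hS
    obtain ⟨R, hR, rfl⟩ := Multiset.mem_map.1 hS
    exact ⟨hM_nonneg hO (hirr R hR).ne_zero, resP hO R (hirr R hR)⟩

end Pool.Agent.H77.EI.FRU
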