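import Pool.Agent.H51.EI.TargetsA

set_option autoImplicit false

open Polynomial Finset

namespace Pool.Agent.H77.EI.RPU

open Pool.Agent.H51.EI

theorem bad (O : Subring ℂ) (F : Multiset O) (hF : ∀ q ∈ F, Irreducible q) :
    ∃ n0 : ℕ, ∀ p : ℕ, p.Prime → n0 ≤ p → ∀ q ∈ F, ¬ q ∣ (p : O) := by
  induction F using Multiset.induction_on with
  | empty => exact ⟨0, fun p _ _ q hq => absurd hq (Multiset.notMem_zero q)⟩
  | cons q F ih =>
    obtain ⟨n0, h0⟩ := ih fun r hr => hF r (Multiset.mem_cons_of_mem hr)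
    by_cases hex : ∃ p0 : ℕ, p0.Prime ∧ q ∣ (p0 : O)
    · obtain ⟨p0, hp0, hq0⟩ := hex
      refine ⟨max n0 (p0 + 1), fun p hp hpn r hr hrp => ?_⟩
      rcases Multiset.mem_cons.1 hr with rfl | hr
      · have hne : p ≠ p0 := by
          have : p0 + 1 ≤ p := (le_max_right _ _).trans hpn
          omega
        have hc : IsCoprime (p : ℤ) (p0 : ℤ) :=
          Nat.isCoprime_iff_coprime.2 ((Nat.coprime_primes hp hp0).2 hne)
        obtain ⟨a, b, hab⟩ := hc
        have h1 : (a : O) * (p : O) + (b : O) * (p0 : O) = 1 := by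
          have h2 := congrArg (fun z : ℤ => (z : O)) hab
          push_cast at h2
          exact h2
        have h3 : r ∣ 1 := by
          rw [← h1]
          exact dvd_add (hrp.mul_left _) (hq0.mul_left _)
        exact (hF r (Multiset.mem_cons_self r F)).not_isUnit (isUnit_of_dvd_one h3)
      · exact h0 p hp ((le_max_left _ _).trans hpn) r hr hrp
    · refine ⟨n0, fun p hp hpn r hr hrp => ?_⟩
      rcases Multiset.mem_cons.1 hr with rfl | hr
      · exact hex ⟨p, hp, hrp⟩
      · exact h0 p hp hpn r hr hrp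

theorem pf_RPU : T_RPU := by
  intro O _ _ z hz
  obtain ⟨n0, h0⟩ := bad O (UniqueFactorizationMonoid.factors z)
    fun q hq => UniqueFactorizationMonoid.irreducible_of_factor q hq
  refine ⟨n0, fun p hp hpn a k hd => ?_⟩
  have hrel : IsRelPrime (p : O) z := by
    refine WfDvdMonoid.isRelPrime_of_no_irreducible_factors (fun h => hz h.2)
      fun q hq hqp hqz => ?_
    obtain ⟨r, hr, hqr⟩ := UniqueFactorizationMonoid.exists_mem_factors_of_dvd hz hq hqz
    exact h0 p hp hpn r hr (hqr.dvd'.trans hqp)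
  exact (hrel.pow_right (n := k)).dvd_of_dvd_mul_right hd

end Pool.Agent.H77.EI.RPU
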